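import Pool.Agent.W5h57.HC.Wr

/-!
# Labellings of the edges of a covering which kill finitely many 2-cells

`G` acts on `E`; the path `p` (a word) leads from `v` to `(ψ p)⁻¹ • v`.
-/

set_option autoImplicit false

namespace Pool.Agent.W5h57.HC

variable {V R G E : Type} [Group G] [MulAction G E]

/-- The initial point of the 1-cell traversed by the letter `(x, b)` after the path `l`. -/
def start (l : List (V × Bool)) (x : V) (b : Bool) : FreeGroup V :=
  FreeGroup.mk l * (if b then 1 else (FreeGroup.of x)⁻¹)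

/-- The endomorphism of paths given by the labelling `w` of the edges. -/
def lab (ψ : FreeGroup V →* G) (w : E → V → FreeGroup V) : FreeGroup V →* Wr E (FreeGroup V) G :=
  FreeGroup.lift fun x => ⟨fun v => w v x, ψ (FreeGroup.of x)⟩

/-- The label of the path `p` which starts in `v`. -/
def rho (ψ : FreeGroup V →* G) (w : E → V → FreeGroup V) (v : E) (p : FreeGroup V) :
    FreeGroup V := (lab ψ w p).f v

variable (ψ : FreeGroup V →* G) (w : E → V → FreeGroup V)

theorem lab_g (p : FreeGroup V) : (lab ψ w p).g = ψ p := by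
  have : (proj E (FreeGroup V) G).comp (lab ψ w) = ψ := by
    ext x
    show (lab ψ w (FreeGroup.of x)).g = _
    rw [lab, FreeGroup.lift_apply_of]
  exact DFunLike.congr_fun this p

theorem rho_mul (v : E) (p q : FreeGroup V) :
    rho ψ w v (p * q) = rho ψ w v p * rho ψ w ((ψ p)⁻¹ • v) q := by
  rw [rho, map_mul, mul_f, lab_g]; rfl

theorem rho_one (v : E) : rho ψ w v 1 = 1 := by
  rw [rho, map_one]; rfl

theorem rho_inv (v : E) (p : FreeGroup V) : rho ψ w v p⁻¹ = (rho ψ w (ψ p • v) p)⁻¹ := by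
  rw [rho, map_inv, inv_f, lab_g]; rfl

theorem rho_of (v : E) (x : V) : rho ψ w v (FreeGroup.of x) = w v x := by
  rw [rho, lab, FreeGroup.lift_apply_of]

/-- a letter -/
theorem rho_letter (v : E) (x : V) (b : Bool) : rho ψ w v (FreeGroup.mk [(x, b)]) =
    if b then w ((ψ (start [] x b))⁻¹ • v) x else (w ((ψ (start [] x b))⁻¹ • v) x)⁻¹ := by
  cases b
  · have e : (FreeGroup.mk [(x, false)] : FreeGroup V) = (FreeGroup.of x)⁻¹ := rfl
    have e2 : (FreeGroup.mk [] : FreeGroup V) = 1 := rfl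
    simp only [start, Bool.false_eq_true, if_false, e2, one_mul]
    rw [e, rho_inv, rho_of, map_inv, inv_inv]
  · have e : (FreeGroup.mk [(x, true)] : FreeGroup V) = FreeGroup.of x := rfl
    have e2 : (FreeGroup.mk [] : FreeGroup V) = 1 := rfl
    simp only [start, if_true, e2, mul_one]
    rw [e, rho_of, map_one, inv_one, one_smul]

theorem start_cons (a : V × Bool) (l : List (V × Bool)) (x : V) (b : Bool) :
    start (a :: l) x b = FreeGroup.mk [a] * start l x b := by
  rw [start, start, ← mul_assoc, FreeGroup.mul_mk]; rfl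

theorem start_append (l l' : List (V × Bool)) (x : V) (b : Bool) :
    start (l ++ l') x b = FreeGroup.mk l * start l' x b := by
  rw [start, start, ← mul_assoc, FreeGroup.mul_mk]

/-- the label of a word depends only on the labels of the edges which it traverses -/
theorem rho_congr (w w' : E → V → FreeGroup V) (L : List (V × Bool)) : ∀ v : E,
    (∀ l₁ x b l₂, L = l₁ ++ (x, b) :: l₂ →
      w ((ψ (start l₁ x b))⁻¹ • v) x = w' ((ψ (start l₁ x b))⁻¹ • v) x) →
    rho ψ w v (FreeGroup.mk L) = rho ψ w' v (FreeGroup.mk L) := by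
  induction L with
  | nil =>
    intro v _
    have e : (FreeGroup.mk [] : FreeGroup V) = 1 := rfl
    rw [e, rho_one, rho_one]
  | cons a L ih =>
    intro v h
    obtain ⟨x, b⟩ := a
    have e : (FreeGroup.mk ((x, b) :: L) : FreeGroup V) = FreeGroup.mk [(x, b)] * FreeGroup.mk L := by
      rw [FreeGroup.mul_mk]; rfl
    rw [e, rho_mul, rho_mul, rho_letter, rho_letter, h [] x b L rfl]
    congr 1
    refine ih _ fun l₁ y c l₂ hL => ?_
    have h1 := h ((x, b) :: l₁) y c l₂ (by rw [hL]; rfl)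
    rw [start_cons, map_mul, mul_inv_rev, mul_smul] at h1
    exact h1

/-- The subgroup generated by the paths from `v` to a 2-cell of `T`, around it, and back. -/
def NT (r : R → FreeGroup V) (T : Finset (E × R)) (v : E) : Subgroup (FreeGroup V) :=
  Subgroup.closure {y | ∃ q s, ((ψ q)⁻¹ • v, s) ∈ T ∧ y = q * r s * q⁻¹}

theorem NT_mem (r : R → FreeGroup V) {T : Finset (E × R)} {v : E} {q : FreeGroup V} {s : R}
    (h : ((ψ q)⁻¹ • v, s) ∈ T) : q * r s * q⁻¹ ∈ NT ψ r T v :=
  Subgroup.subset_closure ⟨q, s, h, rfl⟩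

theorem NT_mono (r : R → FreeGroup V) {T T' : Finset (E × R)} (h : T ⊆ T') (v : E) :
    NT ψ r T v ≤ NT ψ r T' v :=
  Subgroup.closure_mono fun _ ⟨q, s, h1, h2⟩ => ⟨q, s, h h1, h2⟩

theorem NT_conj (r : R → FreeGroup V) {T : Finset (E × R)} {v v' : E} (q : FreeGroup V)
    (hv : v' = (ψ q)⁻¹ • v) {n : FreeGroup V} (hn : n ∈ NT ψ r T v') :
    q * n * q⁻¹ ∈ NT ψ r T v := by
  subst hv
  induction hn using Subgroup.closure_induction with
  | mem y hy =>
    obtain ⟨p, s, h1, rfl⟩ := hy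
    have e : q * (p * r s * p⁻¹) * q⁻¹ = (q * p) * r s * (q * p)⁻¹ := by group
    rw [e]
    refine NT_mem ψ r ?_
    rw [map_mul, mul_inv_rev, mul_smul]
    exact h1
  | one => rw [mul_one, mul_inv_cancel]; exact one_mem _
  | mul a b _ _ ha hb =>
    have e : q * (a * b) * q⁻¹ = (q * a * q⁻¹) * (q * b * q⁻¹) := by group
    rw [e]; exact mul_mem ha hb
  | inv a _ ha =>
    have e : q * a⁻¹ * q⁻¹ = (q * a * q⁻¹)⁻¹ := by group
    rw [e]; exact inv_mem ha

/-- from edges to paths -/
theorem rho_mem (r : R → FreeGroup V) {T : Finset (E × R)}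
    (h : ∀ v x, w v x * (FreeGroup.of x)⁻¹ ∈ NT ψ r T v) (p : FreeGroup V) :
    ∀ v, rho ψ w v p * p⁻¹ ∈ NT ψ r T v := by
  induction p using FreeGroup.induction_on with
  | C1 => intro v; rw [rho_one, one_mul, inv_one]; exact one_mem _
  | of x => intro v; exact (rho_of ψ w v x) ▸ h v x
  | inv_of x _ =>
    intro v
    have hv : ψ (FreeGroup.of x) • v = (ψ (FreeGroup.of x)⁻¹)⁻¹ • v := by
      rw [map_inv, inv_inv]
    have h1 := NT_conj ψ r (v := v) (v' := ψ (FreeGroup.of x) • v) (FreeGroup.of x)⁻¹ hv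
      (inv_mem (h (ψ (FreeGroup.of x) • v) x))
    rw [rho_inv, rho_of, inv_inv]
    have e2 : (w (ψ (FreeGroup.of x) • v) x)⁻¹ * FreeGroup.of x =
      (FreeGroup.of x)⁻¹ * (w (ψ (FreeGroup.of x) • v) x * (FreeGroup.of x)⁻¹)⁻¹ *
        ((FreeGroup.of x)⁻¹)⁻¹ := by group
    rw [e2]
    exact h1
  | mul p q hp hq =>
    intro v
    rw [rho_mul]
    have e : rho ψ w v p * rho ψ w ((ψ p)⁻¹ • v) q * (p * q)⁻¹ =
      (rho ψ w v p * p⁻¹) * (p * (rho ψ w ((ψ p)⁻¹ • v) q * q⁻¹) * p⁻¹) := by group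
    rw [e]
    exact mul_mem (hp v) (NT_conj ψ r p rfl (hq _))

end Pool.Agent.W5h57.HC
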