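import Pool.Agent.W5h57.HC.Lab

/-!
# Labellings which kill finitely many 2-cells of a covering
-/

set_option autoImplicit false

namespace Pool.Agent.W5h57.HC

variable {V R G E : Type} [Group G] [MulAction G E]

open Classical in
/-- `(v, s)` is free in `T`: some new 1-cell is traversed exactly once by the boundary path of
`(v, s)` and is not traversed by the boundary path of another element of `T`. -/
def Free (ψ : FreeGroup V →* G) (r : R → FreeGroup V) (old : V → Prop) (T : Finset (E × R))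
    (v : E) (s : R) : Prop :=
  (v, s) ∈ T ∧ ∃ (l₁ : List (V × Bool)) (x : V) (b : Bool) (l₂ : List (V × Bool)),
    (r s).toWord = l₁ ++ (x, b) :: l₂ ∧ ¬ old x ∧
    ∀ (v' : E) (s' : R) (l₁' : List (V × Bool)) (b' : Bool) (l₂' : List (V × Bool)),
      (v', s') ∈ T → (r s').toWord = l₁' ++ (x, b') :: l₂' →
      (ψ (start l₁' x b'))⁻¹ • v' = (ψ (start l₁ x b))⁻¹ • v → v' = v ∧ s' = s ∧ l₁' = l₁

open Classical in
theorem labels (ψ : FreeGroup V →* G) (r : R → FreeGroup V) (old : V → Prop) (new : R → Prop)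
    (hc : ∀ T : Finset (E × R), (∀ c ∈ T, new c.2) → T.Nonempty → ∃ v s, Free ψ r old T v s)
    (n : ℕ) : ∀ T : Finset (E × R), T.card = n → (∀ c ∈ T, new c.2) →
    ∃ w : E → V → FreeGroup V, (∀ v x, old x → w v x = FreeGroup.of x) ∧
      (∀ c ∈ T, rho ψ w c.1 (r c.2) = 1) ∧
      ∀ v x, w v x * (FreeGroup.of x)⁻¹ ∈ NT ψ r T v := by
  induction n with
  | zero =>
    intro T hT _
    rw [Finset.card_eq_zero] at hT
    subst hT
    refine ⟨fun _ x => FreeGroup.of x, fun _ _ _ => rfl, fun c hc => absurd hc (by simp), ?_⟩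
    intro v x
    rw [mul_inv_cancel]
    exact one_mem _
  | succ n ih =>
    intro T hT hnew
    have hne : T.Nonempty := by
      rw [← Finset.card_pos, hT]; exact Nat.succ_pos n
    obtain ⟨v₀, s₀, hmem, l₁, x₀, b, l₂, hw, hx₀, huniq⟩ := hc T hnew hne
    obtain ⟨w', ha, hb, hcc⟩ := ih (T.erase (v₀, s₀)) (by
      rw [Finset.card_erase_of_mem hmem, hT, Nat.add_sub_cancel])
      (fun c h => hnew c (Finset.mem_of_mem_erase h))
    -- notation
    set u₀ : E := (ψ (start l₁ x₀ b))⁻¹ • v₀ with hu₀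
    set L₁ : FreeGroup V := FreeGroup.mk l₁ with hL₁
    set L₂ : FreeGroup V := FreeGroup.mk l₂ with hL₂
    set z : FreeGroup V := FreeGroup.mk [(x₀, b)] with hz
    set u' : E := (ψ L₁)⁻¹ • v₀ with hu'
    set v₁ : E := (ψ z)⁻¹ • u' with hv₁
    set A : FreeGroup V := rho ψ w' v₀ L₁ with hA
    set B : FreeGroup V := rho ψ w' v₁ L₂ with hB
    have hr : r s₀ = L₁ * (z * L₂) := by
      rw [hL₁, hz, hL₂, FreeGroup.mul_mk, FreeGroup.mul_mk, ← FreeGroup.mk_toWord (x := r s₀), hw]
      rfl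
    set ζ : FreeGroup V := A⁻¹ * B⁻¹ with hζ
    have hsub : T.erase (v₀, s₀) ⊆ T := Finset.erase_subset _ _
    -- the new label of the letter is homotopic to the letter
    have hζz : ζ * z⁻¹ ∈ NT ψ r T u' := by
      have h1 : A * L₁⁻¹ ∈ NT ψ r T v₀ := NT_mono ψ r hsub _ (rho_mem ψ w' r hcc _ _)
      have h2 : B * L₂⁻¹ ∈ NT ψ r T v₁ := NT_mono ψ r hsub _ (rho_mem ψ w' r hcc _ _)
      have hv : v₀ = (ψ L₁⁻¹)⁻¹ • u' := by
        rw [hu', map_inv, inv_inv, smul_inv_smul]
      have h3 := NT_conj ψ r L₁⁻¹ hv (inv_mem h1)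
      have h4 : L₁⁻¹ * r s₀ * L₁⁻¹⁻¹ ∈ NT ψ r T u' :=
        NT_mem ψ r (by rw [← hv]; exact hmem)
      have h5 := NT_conj ψ r z hv₁ (inv_mem h2)
      have e : ζ * z⁻¹ = (L₁⁻¹ * (A * L₁⁻¹)⁻¹ * L₁⁻¹⁻¹) * (L₁⁻¹ * r s₀ * L₁⁻¹⁻¹)⁻¹ *
          (z * (B * L₂⁻¹)⁻¹ * z⁻¹) := by
        rw [hζ, hr]
        group
      rw [e]
      exact mul_mem (mul_mem h3 (inv_mem h4)) h5
    -- the new label of the edge
    set y : FreeGroup V := if b then ζ else ζ⁻¹ with hy
    have hy2 : y * (FreeGroup.of x₀)⁻¹ ∈ NT ψ r T u₀ := by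
      rcases b with _ | _
      · have hz' : z = (FreeGroup.of x₀)⁻¹ := rfl
        have e1 : u₀ = ψ (FreeGroup.of x₀) • u' := by
          rw [hu₀, hu', start]
          simp only [Bool.false_eq_true, if_false]
          rw [map_mul, mul_inv_rev, mul_smul, map_inv, inv_inv]
        have e2 : u' = (ψ (FreeGroup.of x₀))⁻¹ • u₀ := by rw [e1, inv_smul_smul]
        have h6 := NT_conj ψ r (FreeGroup.of x₀) e2 (inv_mem hζz)
        have e3 : y * (FreeGroup.of x₀)⁻¹ =
            FreeGroup.of x₀ * (ζ * z⁻¹)⁻¹ * (FreeGroup.of x₀)⁻¹ := by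
          rw [hy, hz']
          simp only [Bool.false_eq_true, if_false]
          group
        rw [e3]
        exact h6
      · have hz' : z = FreeGroup.of x₀ := rfl
        have e1 : u₀ = u' := by
          rw [hu₀, hu', start]
          simp only [if_true]
          rw [mul_one]
        rw [e1, hy]
        simp only [if_true]
        rw [← hz']
        exact hζz
    let w : E → V → FreeGroup V := fun v x => if v = u₀ ∧ x = x₀ then y else w' v x
    have hw0 : w u₀ x₀ = y := if_pos ⟨rfl, rfl⟩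
    have hw1 : ∀ v x, ¬ (v = u₀ ∧ x = x₀) → w v x = w' v x := fun v x h => if_neg h
    refine ⟨w, ?_, ?_, ?_⟩
    · intro v x hx
      rw [hw1 v x (fun h => hx₀ (h.2 ▸ hx))]
      exact ha v x hx
    · intro c hcT
      by_cases hcc' : c = (v₀, s₀)
      · subst hcc'
        show rho ψ w v₀ (r s₀) = 1
        have h1 : rho ψ w v₀ L₁ = A := by
          refine rho_congr ψ w w' l₁ v₀ fun l x β l' hl => hw1 _ _ ?_
          rintro ⟨h2, h3⟩
          subst h3
          have h4 := huniq v₀ s₀ l β (l' ++ (x, b) :: l₂) hmem (by rw [hw, hl]; simp) h2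
          have h5 := congrArg List.length hl
          rw [h4.2.2] at h5
          simp at h5
        have h2 : rho ψ w v₁ L₂ = B := by
          refine rho_congr ψ w w' l₂ v₁ fun l x β l' hl => hw1 _ _ ?_
          rintro ⟨h2, h3⟩
          subst h3
          have h6 : (ψ (start (l₁ ++ (x, b) :: l) x β))⁻¹ • v₀ = u₀ := by
            rw [← h2, start_append, start_cons, map_mul, map_mul, mul_inv_rev, mul_inv_rev,
              mul_smul, mul_smul]
          have h4 := huniq v₀ s₀ (l₁ ++ (x, b) :: l) β l' hmem (by rw [hw, hl]; simp) h6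
          have h5 := congrArg List.length h4.2.2
          simp at h5
        have h3 : rho ψ w u' z = ζ := by
          have h7 : (ψ (start [] x₀ b))⁻¹ • u' = u₀ := by
            rw [hu', hu₀, ← mul_smul, ← mul_inv_rev, ← map_mul, ← start_append, List.append_nil]
          rw [hz, rho_letter, h7, hw0, hy]
          cases b
          · simp only [Bool.false_eq_true, if_false, inv_inv]
          · simp only [if_true]
        rw [hr, rho_mul, rho_mul, h1, h3, h2, hζ]
        group
      · have h8 := hb c (Finset.mem_erase.2 ⟨hcc', hcT⟩)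
        rw [← h8]
        obtain ⟨v, s⟩ := c
        show rho ψ w v (r s) = rho ψ w' v (r s)
        rw [← FreeGroup.mk_toWord (x := r s)]
        refine rho_congr ψ w w' _ v fun l x β l' hl => hw1 _ _ ?_
        rintro ⟨h2, h3⟩
        subst h3
        have h4 := huniq v s l β l' hcT hl h2
        exact hcc' (Prod.ext h4.1 h4.2.1)
    · intro v x
      by_cases h : v = u₀ ∧ x = x₀
      · rw [h.1, h.2, hw0]; exact hy2
      · rw [hw1 v x h]; exact NT_mono ψ r hsub _ (hcc v x)

end Pool.Agent.W5h57.HC
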