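import Pool.Agent.W5h57.HC.Wr

/-!
# Homomorphisms to `ℤ` of a quotient by an increasing union
-/

set_option autoImplicit false

namespace Pool.Agent.W5h57.HC

open Function

/-- in a f.g. abelian group the elements of infinite order are detected by homomorphisms to `ℤ` -/
theorem exists_dual {A : Type} [AddCommGroup A] [Module.Finite ℤ A] (x : A)
    (hx : ∀ n : ℤ, n ≠ 0 → n • x ≠ 0) : ∃ f : A →ₗ[ℤ] ℤ, f x ≠ 0 := by
  by_contra hcon
  push Not at hcon
  have hfree : Module.Free ℤ (A ⧸ Submodule.torsion ℤ A) := Module.free_of_finite_type_torsion_free'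
  let B := Module.Free.chooseBasis ℤ (A ⧸ Submodule.torsion ℤ A)
  have h0 : (Submodule.torsion ℤ A).mkQ x = 0 := by
    apply B.ext_elem
    intro j
    rw [map_zero]
    exact hcon ((B.coord j).comp (Submodule.torsion ℤ A).mkQ)
  rw [Submodule.mkQ_apply, Submodule.Quotient.mk_eq_zero, Submodule.mem_torsion_iff] at h0
  obtain ⟨n, hn⟩ := h0
  exact hx n (nonZeroDivisors.coe_ne_zero n) hn

/-- `H = J / N`: if every finite subset of `N` is killed by a nontrivial homomorphism from `J` to
`ℤ`, then `H` has a nontrivial homomorphism to `ℤ` -/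
theorem hom_of_finite {J H : Type} [Group J] [Group H] [Group.FG J] (π : J →* H)
    (hπ : Surjective π)
    (h : ∀ S : Finset J, (∀ s ∈ S, π s = 1) →
      ∃ χ : J →* Multiplicative ℤ, χ ≠ 1 ∧ ∀ s ∈ S, χ s = 1) :
    ∃ f : H →* Multiplicative ℤ, f ≠ 1 := by
  classical
  by_contra hcon
  push Not at hcon
  have : Group.FG H := Group.fg_of_surjective hπ
  have hfin : Module.Finite ℤ (Additive (Abelianization H)) := by
    have : Group.FG (Abelianization H) :=
      Group.fg_of_surjective (f := Abelianization.of) (QuotientGroup.mk_surjective)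
    have : AddGroup.FG (Additive (Abelianization H)) := inferInstance
    exact Module.Finite.iff_addGroup_fg.2 this
  -- powers are products of commutators
  have hpow : ∀ p : J, ∃ n : ℤ, n ≠ 0 ∧ ∃ c ∈ commutator J, π c = π p ^ n := by
    intro p
    have h1 : ∃ n : ℤ, n ≠ 0 ∧ n • (Additive.ofMul (Abelianization.of (π p))) = 0 := by
      by_contra hno
      push Not at hno
      obtain ⟨f, hf⟩ := exists_dual _ hno
      have h2 := hcon (MonoidHom.mk' (fun a : H => Multiplicative.ofAdd
        (f (Additive.ofMul (Abelianization.of a)))) (by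
          intro a b
          rw [map_mul, ofMul_mul, map_add, ofAdd_add]))
      have h3 := DFunLike.congr_fun h2 (π p)
      exact hf h3
    obtain ⟨n, hn, h2⟩ := h1
    refine ⟨n, hn, ?_⟩
    have h3 : Abelianization.of (π p ^ n) = 1 := by
      rw [map_zpow]
      exact h2
    have h4 : π p ^ n ∈ commutator H := (QuotientGroup.eq_one_iff _).1 h3
    have h5 : (commutator J).map π = commutator H := by
      rw [commutator_def, commutator_def, Subgroup.map_commutator,
        Subgroup.map_top_of_surjective π hπ]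
    rw [← h5] at h4
    obtain ⟨c, hc, hc2⟩ := h4
    exact ⟨c, hc, hc2⟩
  choose n hn c hc hπc using hpow
  obtain ⟨S₀, hS₀⟩ := (Group.fg_def.1 inferInstance : (⊤ : Subgroup J).FG)
  obtain ⟨χ, hχ, hS⟩ := h (S₀.image fun p => (c p)⁻¹ * p ^ (n p)) (by
    intro s hs
    obtain ⟨p, _, rfl⟩ := Finset.mem_image.1 hs
    rw [map_mul, map_inv, map_zpow, hπc, inv_mul_cancel])
  have hker : commutator J ≤ χ.ker := Abelianization.commutator_subset_ker χ
  apply hχ
  have h6 : ∀ p ∈ S₀, χ p = 1 := by
    intro p hp
    have h7 := hS _ (Finset.mem_image_of_mem _ hp)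
    rw [map_mul, map_inv, map_zpow, MonoidHom.mem_ker.1 (hker (hc p)), inv_one, one_mul] at h7
    have h8 : n p * Multiplicative.toAdd (χ p) = 0 := by
      have := congrArg Multiplicative.toAdd h7
      rw [toAdd_zpow, smul_eq_mul] at this
      exact this
    rcases mul_eq_zero.1 h8 with h9 | h9
    · exact absurd h9 (hn p)
    · exact h9
  have h9 : (⊤ : Subgroup J) ≤ χ.ker := by
    rw [← hS₀, Subgroup.closure_le]
    intro p hp
    exact h6 p hp
  ext p
  rw [MonoidHom.mem_ker.1 (h9 (Subgroup.mem_top p))]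
  rfl

end Pool.Agent.W5h57.HC
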