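import Pool.Agent.W5h57.HC.Wr

/-!
# The group with all the generators of `K` and the relators of the subcomplex `K₀`
-/

set_option autoImplicit false

namespace Pool.Agent.W5h57.HC

open Pool.Agent.R655.LI Function

variable {K₀ K : Cx}

/-- The relators of the subcomplex. -/
def oldRel (i : Sub K₀ K) : Set (FreeGroup K.V) := Set.range fun j => K.r (i.c j)

/-- All the generators of `K` and the relators of the subcomplex `K₀`. -/
abbrev RelG (i : Sub K₀ K) : Type := PresentedGroup (oldRel i)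

/-- the inclusion of the second factor -/
def inr (E F G : Type) [Group F] [Group G] [MulAction G E] : G →* Wr E F G where
  toFun g := ⟨fun _ => 1, g⟩
  map_one' := rfl
  map_mul' g h := by
    refine Wr.ext (funext fun v => ?_) rfl
    rw [mul_f]
    exact (one_mul 1).symm

open Classical in
/-- the values on the generators -/
noncomputable def phi (i : Sub K₀ K) (x : K.V) : Wr K₀.Pi (FreeGroup (K₀.Pi × K.V)) K₀.Pi :=
  if h : ∃ a, i.v a = x then ⟨fun _ => 1, PresentedGroup.of h.choose⟩
  else ⟨fun v => FreeGroup.of (v, x), 1⟩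

theorem phi_old (i : Sub K₀ K) (a : K₀.V) :
    phi i (i.v a) = ⟨fun _ => 1, PresentedGroup.of a⟩ := by
  have h : ∃ a', i.v a' = i.v a := ⟨a, rfl⟩
  rw [phi, dif_pos h, i.v.injective h.choose_spec]

theorem phi_new (i : Sub K₀ K) (x : K.V) (h : ¬ ∃ a, i.v a = x) :
    phi i x = ⟨fun v => FreeGroup.of (v, x), 1⟩ := by
  rw [phi, dif_neg h]

theorem phi_map (i : Sub K₀ K) (p : FreeGroup K₀.V) :
    FreeGroup.lift (phi i) (FreeGroup.map i.v p) =
      ⟨fun _ => 1, PresentedGroup.mk (Set.range K₀.r) p⟩ := by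
  have h : (FreeGroup.lift (phi i)).comp (FreeGroup.map i.v) =
      (inr K₀.Pi (FreeGroup (K₀.Pi × K.V)) K₀.Pi).comp (PresentedGroup.mk (Set.range K₀.r)) := by
    refine FreeGroup.ext_hom _ _ fun a => ?_
    rw [MonoidHom.comp_apply, FreeGroup.map.of, FreeGroup.lift_apply_of, phi_old]
    rfl
  exact DFunLike.congr_fun h p

theorem phi_rel (i : Sub K₀ K) : ∀ p ∈ oldRel i, FreeGroup.lift (phi i) p = 1 := by
  rintro _ ⟨j, rfl⟩
  show FreeGroup.lift (phi i) (K.r (i.c j)) = 1
  rw [← i.comm, phi_map]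
  have : PresentedGroup.mk (Set.range K₀.r) (K₀.r j) = 1 := PresentedGroup.one_of_mem ⟨j, rfl⟩
  rw [this]
  rfl

/-- the homomorphism to the wreath product -/
noncomputable def Phi (i : Sub K₀ K) : RelG i →* Wr K₀.Pi (FreeGroup (K₀.Pi × K.V)) K₀.Pi :=
  PresentedGroup.toGroup (phi_rel i)

theorem Phi_mk (i : Sub K₀ K) (p : FreeGroup K.V) :
    Phi i (PresentedGroup.mk _ p) = FreeGroup.lift (phi i) p := rfl

/-- from `π₁(K₀)` -/
noncomputable def sig (i : Sub K₀ K) : K₀.Pi →* RelG i :=
  PresentedGroup.toGroup (f := fun v => PresentedGroup.of (i.v v)) (by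
    rintro _ ⟨j, rfl⟩
    have : FreeGroup.lift (fun v => (PresentedGroup.of (i.v v) : RelG i)) =
        (PresentedGroup.mk (oldRel i)).comp (FreeGroup.map i.v) := by
      refine FreeGroup.ext_hom _ _ fun v => ?_
      rw [MonoidHom.comp_apply, FreeGroup.map.of, FreeGroup.lift_apply_of]
      rfl
    rw [this, MonoidHom.comp_apply, i.comm]
    exact PresentedGroup.one_of_mem ⟨j, rfl⟩)

theorem sig_of (i : Sub K₀ K) (a : K₀.V) : sig i (PresentedGroup.of a) =
    PresentedGroup.of (i.v a) := PresentedGroup.toGroup.of _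

/-- the labels -/
noncomputable def Lam (i : Sub K₀ K) : FreeGroup (K₀.Pi × K.V) →* RelG i :=
  FreeGroup.lift fun c => (sig i c.1)⁻¹ * PresentedGroup.of c.2 * sig i c.1

theorem key (i : Sub K₀ K) (p : FreeGroup K.V) : ∀ v : K₀.Pi,
    (sig i v)⁻¹ * PresentedGroup.mk _ p * sig i ((FreeGroup.lift (phi i) p).g⁻¹ • v) =
      Lam i ((FreeGroup.lift (phi i) p).f v) := by
  induction p using FreeGroup.induction_on with
  | C1 =>
    intro v
    have e : FreeGroup.lift (phi i) 1 = 1 := map_one _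
    rw [e, one_f, one_g, inv_one, one_smul, map_one, map_one, mul_one, inv_mul_cancel]
  | of x =>
    intro v
    show (sig i v)⁻¹ * PresentedGroup.mk _ (FreeGroup.of x) *
      sig i ((FreeGroup.lift (phi i) (FreeGroup.of x)).g⁻¹ • v) =
        Lam i ((FreeGroup.lift (phi i) (FreeGroup.of x)).f v)
    rw [FreeGroup.lift_apply_of]
    by_cases h : ∃ a, i.v a = x
    · obtain ⟨a, rfl⟩ := h
      rw [phi_old]
      show (sig i v)⁻¹ * PresentedGroup.mk _ (FreeGroup.of (i.v a)) *
        sig i ((PresentedGroup.of a)⁻¹ * v) = Lam i 1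
      rw [map_mul, map_inv, sig_of, map_one]
      show (sig i v)⁻¹ * PresentedGroup.of (i.v a) * ((PresentedGroup.of (i.v a))⁻¹ * sig i v) = 1
      group
    · rw [phi_new i x h]
      show (sig i v)⁻¹ * PresentedGroup.of x * sig i ((1 : K₀.Pi)⁻¹ • v) =
        Lam i (FreeGroup.of (v, x))
      rw [inv_one, one_smul, Lam, FreeGroup.lift_apply_of]
  | inv_of x hx =>
    intro v
    rw [map_inv, map_inv, inv_g, inv_inv, inv_f, map_inv, ← hx]
    rw [inv_smul_smul]
    group
  | mul p q hp hq =>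
    intro v
    rw [map_mul, map_mul, mul_g, mul_f, map_mul, ← hp, ← hq, mul_inv_rev, mul_smul]
    group

theorem Phi_injective (i : Sub K₀ K) : Injective (Phi i) := by
  rw [injective_iff_map_eq_one]
  intro q hq
  obtain ⟨p, rfl⟩ := PresentedGroup.mk_surjective _ q
  rw [Phi_mk] at hq
  have h := key i p 1
  rw [hq, one_f, one_g, inv_one, one_smul, map_one, map_one, mul_one, inv_one,
    one_mul] at h
  exact h

/-- free products with free groups -/
theorem locInd_rel (i : Sub K₀ K) (h : LocInd K₀.Pi) : LocInd (RelG i) :=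
  of_injective (locInd_wr (locInd_free _) h) (Phi i) (Phi_injective i)

/-- `π₁(K₀)` embeds -/
theorem rel_inj (i : Sub K₀ K) (p : FreeGroup K₀.V)
    (h : (PresentedGroup.mk _ (FreeGroup.map i.v p) : RelG i) = 1) :
    (PresentedGroup.mk _ p : K₀.Pi) = 1 := by
  have h1 : Phi i (PresentedGroup.mk _ (FreeGroup.map i.v p)) = 1 := by rw [h, map_one]
  rw [Phi_mk, phi_map] at h1
  exact congrArg Wr.g h1

end Pool.Agent.W5h57.HC
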