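import Pool.Agent.W5h57.HC.Labels
import Pool.Agent.W5h57.HC.Rel
import Pool.Agent.W5h57.HC.Quo

/-!
# Collapsible coverings
-/

set_option autoImplicit false

namespace Pool.Agent.W5h57.HC

open Pool.Agent.R655.LI Function

variable {K₀ K : Cx}

/-- the canonical homomorphism from words to the fundamental group -/
abbrev psi (K : Cx) : FreeGroup K.V →* K.Pi := PresentedGroup.mk (Set.range K.r)

theorem psi_r (K : Cx) (s : K.R) : psi K (K.r s) = 1 := PresentedGroup.one_of_mem ⟨s, rfl⟩

/-- Every finite nonempty set of 2-cells of the covering with fibre `E` which do not lie over `K₀`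
has a free 2-cell. -/
def Collapsible (i : Sub K₀ K) (E : Type) [MulAction K.Pi E] : Prop :=
  ∀ T : Finset (E × K.R), (∀ c ∈ T, c.2 ∉ Set.range i.c) → T.Nonempty →
    ∃ v s, Free (psi K) K.r (fun x => x ∈ Set.range i.v) T v s

section

variable {E : Type} [MulAction K.Pi E]

/-- the relators of the subcomplex -/
abbrev OO (i : Sub K₀ K) : Subgroup (FreeGroup K.V) := Subgroup.normalClosure (oldRel i)

theorem mem_OO (i : Sub K₀ K) (p : FreeGroup K.V) :
    p ∈ OO i ↔ (PresentedGroup.mk _ p : RelG i) = 1 := (QuotientGroup.eq_one_iff p).symm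

theorem OO_psi (i : Sub K₀ K) {p : FreeGroup K.V} (h : p ∈ OO i) : psi K p = 1 := by
  have h1 : OO i ≤ (psi K).ker := by
    refine Subgroup.normalClosure_le_normal ?_
    rintro _ ⟨j, rfl⟩
    exact psi_r K _
  exact h1 h

theorem NT_psi {T : Finset (E × K.R)} {v : E} {p : FreeGroup K.V}
    (h : p ∈ NT (psi K) K.r T v) : psi K p = 1 := by
  have h1 : NT (psi K) K.r T v ≤ (psi K).ker := by
    rw [NT, Subgroup.closure_le]
    rintro _ ⟨q, s, _, rfl⟩
    show psi K (q * K.r s * q⁻¹) = 1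
    rw [map_mul, map_mul, psi_r, mul_one, map_inv, mul_inv_cancel]
  exact h1 h

/-- the finitely many 2-cells which are used -/
theorem exists_T (i : Sub K₀ K) (v : E) {k : FreeGroup K.V} (h : psi K k = 1) :
    ∃ T : Finset (E × K.R), (∀ c ∈ T, c.2 ∉ Set.range i.c) ∧ k ∈ NT (psi K) K.r T v ⊔ OO i := by
  classical
  have h1 : k ∈ Subgroup.normalClosure (Set.range K.r) := (QuotientGroup.eq_one_iff k).1 h
  rw [Subgroup.normalClosure] at h1
  induction h1 using Subgroup.closure_induction with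
  | mem y hy =>
    obtain ⟨_, ⟨s, rfl⟩, hy⟩ := Group.mem_conjugatesOfSet_iff.1 hy
    obtain ⟨q, rfl⟩ := isConj_iff.1 hy
    by_cases hs : s ∈ Set.range i.c
    · obtain ⟨j, rfl⟩ := hs
      refine ⟨∅, fun c hc => absurd hc (by simp), ?_⟩
      refine Subgroup.mem_sup_right ?_
      have hmem : K.r (i.c j) ∈ OO i := Subgroup.subset_normalClosure ⟨j, rfl⟩
      exact Subgroup.normalClosure_normal.conj_mem _ hmem q
    · refine ⟨{((psi K q)⁻¹ • v, s)}, ?_, Subgroup.mem_sup_left (NT_mem _ _ (by simp))⟩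
      intro c hc
      rw [Finset.mem_singleton] at hc
      rw [hc]; exact hs
  | one => exact ⟨∅, fun c hc => absurd hc (by simp), one_mem _⟩
  | mul a b ha hb iha ihb =>
    obtain ⟨T, hT, haT⟩ := iha ((QuotientGroup.eq_one_iff a).2 ha)
    obtain ⟨T', hT', hbT⟩ := ihb ((QuotientGroup.eq_one_iff b).2 hb)
    refine ⟨T ∪ T', ?_, mul_mem ?_ ?_⟩
    · intro c hc
      rcases Finset.mem_union.1 hc with h | h
      · exact hT c h
      · exact hT' c h
    · exact sup_le_sup_right (NT_mono _ _ Finset.subset_union_left v) _ haT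
    · exact sup_le_sup_right (NT_mono _ _ Finset.subset_union_right v) _ hbT
  | inv a ha iha =>
    obtain ⟨T, hT, haT⟩ := iha ((QuotientGroup.eq_one_iff a).2 ha)
    exact ⟨T, hT, inv_mem haT⟩

/-- the same for finitely many elements -/
theorem exists_T_finset (i : Sub K₀ K) (v : E) (S : Finset (FreeGroup K.V))
    (h : ∀ k ∈ S, psi K k = 1) :
    ∃ T : Finset (E × K.R), (∀ c ∈ T, c.2 ∉ Set.range i.c) ∧
      ∀ k ∈ S, k ∈ NT (psi K) K.r T v ⊔ OO i := by
  classical
  induction S using Finset.induction_on with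
  | empty => exact ⟨∅, fun c hc => absurd hc (by simp), fun k hk => absurd hk (by simp)⟩
  | insert k S _ ih =>
    obtain ⟨T, hT, hS⟩ := ih fun k' hk' => h k' (Finset.mem_insert_of_mem hk')
    obtain ⟨T', hT', hk⟩ := exists_T i v (h k (Finset.mem_insert_self k S))
    refine ⟨T ∪ T', ?_, ?_⟩
    · intro c hc
      rcases Finset.mem_union.1 hc with h | h
      · exact hT c h
      · exact hT' c h
    · intro k' hk'
      rcases Finset.mem_insert.1 hk' with rfl | hk'
      · exact sup_le_sup_right (NT_mono _ _ Finset.subset_union_right v) _ hk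
      · exact sup_le_sup_right (NT_mono _ _ Finset.subset_union_left v) _ (hS k' hk')

/-- the label in the relative group -/
noncomputable def th (i : Sub K₀ K) (w : E → K.V → FreeGroup K.V) (v : E) (p : FreeGroup K.V) :
    RelG i := PresentedGroup.mk _ (rho (psi K) w v p)

theorem th_mul (i : Sub K₀ K) (w : E → K.V → FreeGroup K.V) (v : E) (p q : FreeGroup K.V)
    (h : psi K p • v = v) : th i w v (p * q) = th i w v p * th i w v q := by
  have e : (psi K p)⁻¹ • v = v := by rw [inv_smul_eq_iff, h]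
  rw [th, rho_mul, e, map_mul]
  rfl

theorem rho_old (i : Sub K₀ K) (w : E → K.V → FreeGroup K.V)
    (ha : ∀ v x, x ∈ Set.range i.v → w v x = FreeGroup.of x) (p : FreeGroup K₀.V) : ∀ v : E,
    rho (psi K) w v (FreeGroup.map i.v p) = FreeGroup.map i.v p := by
  induction p using FreeGroup.induction_on with
  | C1 => intro v; rw [map_one, rho_one]
  | of x =>
    intro v
    show rho (psi K) w v (FreeGroup.map i.v (FreeGroup.of x)) = FreeGroup.map i.v (FreeGroup.of x)
    rw [FreeGroup.map.of, rho_of]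
    exact ha v _ ⟨x, rfl⟩
  | inv_of x hx => intro v; rw [map_inv, rho_inv, hx]
  | mul p q hp hq => intro v; rw [map_mul, rho_mul, hp, hq]

theorem rho_conj (w : E → K.V → FreeGroup K.V) (v : E) (q r : FreeGroup K.V)
    (h : psi K r = 1) : rho (psi K) w v (q * r * q⁻¹) =
      rho (psi K) w v q * rho (psi K) w ((psi K q)⁻¹ • v) r * (rho (psi K) w v q)⁻¹ := by
  rw [rho_mul, rho_mul, rho_inv, map_mul, h, mul_one, smul_inv_smul]

/-- the words which are trivial in `π₁(K)` and in the relative group -/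
def Kil (i : Sub K₀ K) (w : E → K.V → FreeGroup K.V) (v : E) : Subgroup (FreeGroup K.V) where
  carrier := {p | psi K p = 1 ∧ th i w v p = 1}
  one_mem' := ⟨map_one _, by rw [th, rho_one, map_one]⟩
  mul_mem' := by
    rintro a b ⟨ha, ha'⟩ ⟨hb, hb'⟩
    refine ⟨by rw [map_mul, ha, hb, one_mul], ?_⟩
    rw [th_mul i w v a b (by rw [ha, one_smul]), ha', hb', one_mul]
  inv_mem' := by
    rintro a ⟨ha, ha'⟩
    refine ⟨by rw [map_inv, ha, inv_one], ?_⟩
    rw [th, rho_inv, ha, one_smul, map_inv]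
    rw [th] at ha'
    rw [ha', inv_one]

theorem kil_le (i : Sub K₀ K) (w : E → K.V → FreeGroup K.V) (T : Finset (E × K.R)) (v : E)
    (ha : ∀ v x, x ∈ Set.range i.v → w v x = FreeGroup.of x)
    (hb : ∀ c ∈ T, rho (psi K) w c.1 (K.r c.2) = 1) :
    NT (psi K) K.r T v ⊔ OO i ≤ Kil i w v := by
  refine sup_le ?_ ?_
  · rw [NT, Subgroup.closure_le]
    rintro _ ⟨q, s, hs, rfl⟩
    refine ⟨by rw [map_mul, map_mul, psi_r, mul_one, map_inv, mul_inv_cancel], ?_⟩
    rw [th, rho_conj _ _ _ _ (psi_r K s)]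
    have := hb _ hs
    rw [this, mul_one, mul_inv_cancel, map_one]
  · rw [OO, Subgroup.normalClosure, Subgroup.closure_le]
    intro y hy
    obtain ⟨_, ⟨j, rfl⟩, hy⟩ := Group.mem_conjugatesOfSet_iff.1 hy
    obtain ⟨q, rfl⟩ := isConj_iff.1 hy
    refine ⟨by rw [map_mul, map_mul, psi_r, mul_one, map_inv, mul_inv_cancel], ?_⟩
    rw [th, rho_conj _ _ _ _ (psi_r K _)]
    rw [← i.comm, rho_old i w ha, i.comm, map_mul, map_mul, map_inv]
    have h1 : (PresentedGroup.mk _ (K.r (i.c j)) : RelG i) = 1 :=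
      PresentedGroup.one_of_mem ⟨j, rfl⟩
    rw [h1, mul_one, mul_inv_cancel]

theorem of_th_eq_one (i : Sub K₀ K) (w : E → K.V → FreeGroup K.V) (T : Finset (E × K.R)) (v : E)
    (hc : ∀ v x, w v x * (FreeGroup.of x)⁻¹ ∈ NT (psi K) K.r T v) {p : FreeGroup K.V}
    (h : th i w v p = 1) : p ∈ NT (psi K) K.r T v ⊔ OO i := by
  have h1 : rho (psi K) w v p ∈ OO i := (mem_OO i _).2 h
  have h2 := rho_mem (psi K) w K.r hc p v
  have e : p = (rho (psi K) w v p * p⁻¹)⁻¹ * rho (psi K) w v p := by group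
  rw [e]
  exact mul_mem (Subgroup.mem_sup_left (inv_mem h2)) (Subgroup.mem_sup_right h1)

theorem exists_w (i : Sub K₀ K) (hcol : Collapsible i E) (T : Finset (E × K.R))
    (hT : ∀ c ∈ T, c.2 ∉ Set.range i.c) :
    ∃ w : E → K.V → FreeGroup K.V, (∀ v x, x ∈ Set.range i.v → w v x = FreeGroup.of x) ∧
      (∀ c ∈ T, rho (psi K) w c.1 (K.r c.2) = 1) ∧
      ∀ v x, w v x * (FreeGroup.of x)⁻¹ ∈ NT (psi K) K.r T v :=
  labels (psi K) K.r (fun x => x ∈ Set.range i.v) (fun s => s ∉ Set.range i.c) hcol _ T rfl hT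

/-- `π₁(K₀)` embeds. -/
theorem inj (i : Sub K₀ K) (hcol : Collapsible i E) (v : E) : Injective i.map := by
  rw [injective_iff_map_eq_one]
  intro a ha
  obtain ⟨p, rfl⟩ := PresentedGroup.mk_surjective _ a
  have h1 : i.map (PresentedGroup.mk _ p) = psi K (FreeGroup.map i.v p) := by
    have h2 : i.map.comp (PresentedGroup.mk _) = (psi K).comp (FreeGroup.map i.v) := by
      refine FreeGroup.ext_hom _ _ fun x => ?_
      rw [MonoidHom.comp_apply, MonoidHom.comp_apply, FreeGroup.map.of]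
      exact PresentedGroup.toGroup.of _
    exact DFunLike.congr_fun h2 p
  rw [h1] at ha
  obtain ⟨T, hT, hp⟩ := exists_T i v ha
  obtain ⟨w, hw, hb, _⟩ := exists_w i hcol T hT
  have h3 := (kil_le i w T v hw hb hp).2
  rw [th, rho_old i w hw] at h3
  exact rel_inj i p h3

/-- The subgroups with a fixed point. -/
theorem fixed (i : Sub K₀ K) (hcol : Collapsible i E) (h0 : LocInd K₀.Pi) (v : E)
    (H : Subgroup K.Pi) (hH : H.FG) (hne : H ≠ ⊥) (hv : ∀ h ∈ H, h • v = v) :
    ∃ f : H →* Multiplicative ℤ, Surjective f := by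
  classical
  obtain ⟨S₀, hS₀⟩ := hH
  have hsurj : Surjective (psi K) := PresentedGroup.mk_surjective _
  choose lift hlift using hsurj
  let J : Subgroup (FreeGroup K.V) := Subgroup.closure (S₀.image lift : Finset (FreeGroup K.V))
  have hJFG : Group.FG J := (Group.fg_iff_subgroup_fg J).2 ⟨_, rfl⟩
  have hmap : J.map (psi K) = H := by
    rw [← hS₀, MonoidHom.map_closure]
    congr 1
    ext y
    constructor
    · rintro ⟨x, hx, rfl⟩
      obtain ⟨z, hz, rfl⟩ := Finset.mem_image.1 (Finset.mem_coe.1 hx)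
      rw [hlift]; exact hz
    · intro hy
      exact ⟨lift y, Finset.mem_coe.2 (Finset.mem_image_of_mem _ hy), hlift y⟩
  have hJH : ∀ p : J, psi K p.1 ∈ H := fun p => by
    rw [← hmap]; exact ⟨p.1, p.2, rfl⟩
  let π : J →* H := ((psi K).comp J.subtype).codRestrict H hJH
  have hπ : Surjective π := by
    rintro ⟨y, hy⟩
    rw [← hmap] at hy
    obtain ⟨x, hx, hxy⟩ := hy
    exact ⟨⟨x, hx⟩, Subtype.ext hxy⟩
  obtain ⟨f, hf⟩ := hom_of_finite π hπ (by
    intro S hS
    obtain ⟨T, hT, hST⟩ := exists_T_finset i v (S.image Subtype.val) (by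
      intro k hk
      obtain ⟨s, hs, rfl⟩ := Finset.mem_image.1 hk
      exact congrArg Subtype.val (hS s hs))
    obtain ⟨w, hw, hb, hc⟩ := exists_w i hcol T hT
    let θ : J →* RelG i := MonoidHom.mk' (fun p => th i w v p.1) (by
      intro p q
      exact th_mul i w v p.1 q.1 (hv _ (hJH p)))
    have hθ : θ ≠ 1 := by
      intro h1
      apply hne
      rw [Subgroup.eq_bot_iff_forall]
      intro y hy
      rw [← hmap] at hy
      obtain ⟨x, hx, rfl⟩ := hy
      have h2 : th i w v x = 1 := DFunLike.congr_fun h1 ⟨x, hx⟩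
      exact (kil_le i w T v hw hb (of_th_eq_one i w T v hc h2)).1
    have h3 : θ.range.FG := (Group.fg_iff_subgroup_fg _).1
      (Group.fg_of_surjective θ.rangeRestrict_surjective)
    have h4 : θ.range ≠ ⊥ := by
      intro h5
      apply hθ
      ext x
      have : θ x ∈ θ.range := ⟨x, rfl⟩
      rw [h5] at this
      exact Subgroup.mem_bot.1 this
    obtain ⟨φ, hφ⟩ := locInd_rel i h0 _ h3 h4
    refine ⟨φ.comp θ.rangeRestrict, ?_, ?_⟩
    · intro h6
      obtain ⟨x, hx⟩ := (hφ.comp θ.rangeRestrict_surjective) (Multiplicative.ofAdd 1)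
      have h7 : (φ.comp θ.rangeRestrict) x = Multiplicative.ofAdd 1 := hx
      rw [h6] at h7
      have h8 := congrArg Multiplicative.toAdd h7
      exact zero_ne_one h8
    · intro s hs
      have h9 : θ s = 1 := (kil_le i w T v hw hb (hST s.1 (Finset.mem_image_of_mem _ hs))).2
      have h10 : θ.rangeRestrict s = 1 := Subtype.ext h9
      rw [MonoidHom.comp_apply, h10, map_one])
  refine surj_of_ne f ?_
  by_contra hcon
  push Not at hcon
  exact hf (MonoidHom.ext hcon)

/-- The stabilizers. -/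
theorem stab (i : Sub K₀ K) (hcol : Collapsible i E) (h0 : LocInd K₀.Pi) (v : E) :
    LocInd (MulAction.stabilizer K.Pi v) := by
  intro H hH hne
  set H' : Subgroup K.Pi := H.map (MulAction.stabilizer K.Pi v).subtype with hH'
  have h1 : H'.FG := by
    classical
    obtain ⟨S, rfl⟩ := hH
    refine ⟨S.image (MulAction.stabilizer K.Pi v).subtype, ?_⟩
    rw [hH', MonoidHom.map_closure, Finset.coe_image]
  have h2 : H' ≠ ⊥ := by
    intro h3
    apply hne
    rw [Subgroup.map_eq_bot_iff_of_injective _ (Subgroup.subtype_injective _)] at h3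
    exact h3
  obtain ⟨f, hf⟩ := fixed i hcol h0 v H' h1 h2 (by
    rintro _ ⟨x, _, rfl⟩
    exact x.2)
  let e : H ≃* H' := H.equivMapOfInjective _ (Subgroup.subtype_injective _)
  exact ⟨f.comp e.toMonoidHom, hf.comp e.surjective⟩

/-- The group. -/
theorem total (i : Sub K₀ K) (hcol : Collapsible i E) (h0 : LocInd K₀.Pi)
    (hh : ∀ H : Subgroup K.Pi, H.FG → (∀ v : E, ∃ g ∈ H, g • v ≠ v) →
      ∃ (A : Type) (_ : Group A) (f : H →* A), LocInd A ∧ f ≠ 1) : LocInd K.Pi := by
  intro H hH hne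
  by_cases h : ∃ v : E, ∀ g ∈ H, g • v = v
  · obtain ⟨v, hv⟩ := h
    exact fixed i hcol h0 v H hH hne hv
  · push Not at h
    obtain ⟨A, _, f, hA, hf⟩ := hh H hH h
    exact of_hom hA hH f hf

end

end Pool.Agent.W5h57.HC
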