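import Pool.Agent.R655.LI.Defs

/-!
# Permutational wreath products, closure properties of locally indicable groups
-/

set_option autoImplicit false

namespace Pool.Agent.W5h57.HC

open Pool.Agent.R655.LI Function

/-- The permutational wreath product of `F` by `G`, acting on `E`. -/
@[ext] structure Wr (E F G : Type) where
  f : E → F
  g : G

section wr

variable {E F G : Type} [Group F] [Group G] [MulAction G E]

set_option linter.unusedSectionVars false

instance : Mul (Wr E F G) := ⟨fun a b => ⟨fun v => a.f v * b.f (a.g⁻¹ • v), a.g * b.g⟩⟩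
instance : One (Wr E F G) := ⟨⟨fun _ => 1, 1⟩⟩
instance : Inv (Wr E F G) := ⟨fun a => ⟨fun v => (a.f (a.g • v))⁻¹, a.g⁻¹⟩⟩

theorem mul_f (a b : Wr E F G) (v : E) : (a * b).f v = a.f v * b.f (a.g⁻¹ • v) := rfl
theorem mul_g (a b : Wr E F G) : (a * b).g = a.g * b.g := rfl
theorem one_f (v : E) : (1 : Wr E F G).f v = 1 := rfl
theorem one_g : (1 : Wr E F G).g = 1 := rfl
theorem inv_f (a : Wr E F G) (v : E) : (a⁻¹).f v = (a.f (a.g • v))⁻¹ := rfl
theorem inv_g (a : Wr E F G) : (a⁻¹).g = a.g⁻¹ := rfl

instance : Group (Wr E F G) :=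
  Group.ofLeftAxioms
    (by
      intro a b c
      refine Wr.ext (funext fun v => ?_) ?_
      · rw [mul_f, mul_f, mul_f, mul_f, mul_g, mul_inv_rev, mul_smul, mul_assoc]
      · rw [mul_g, mul_g, mul_g, mul_g, mul_assoc])
    (by
      intro a
      refine Wr.ext (funext fun v => ?_) ?_
      · rw [mul_f, one_f, one_g, inv_one, one_smul, one_mul]
      · rw [mul_g, one_g, one_mul])
    (by
      intro a
      refine Wr.ext (funext fun v => ?_) ?_
      · rw [mul_f, inv_f, inv_g, inv_inv, inv_mul_cancel, one_f]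
      · rw [mul_g, inv_g, inv_mul_cancel, one_g])

/-- the projection -/
def proj (E F G : Type) [Group F] [Group G] [MulAction G E] : Wr E F G →* G where
  toFun a := a.g
  map_one' := rfl
  map_mul' _ _ := rfl

end wr

/-- a homomorphism to `ℤ` which is not trivial can be made surjective -/
theorem surj_of_ne {H : Type} [Group H] (ψ : H →* Multiplicative ℤ) (h : ∃ x, ψ x ≠ 1) :
    ∃ ψ' : H →* Multiplicative ℤ, Surjective ψ' := by
  classical
  let v : H → ℤ := fun x => Multiplicative.toAdd (ψ x)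
  have vmul : ∀ x y, v (x * y) = v x + v y := fun x y => by
    show Multiplicative.toAdd (ψ (x * y)) = _
    rw [map_mul]; rfl
  have vzpow : ∀ (x : H) (n : ℤ), v (x ^ n) = n * v x := fun x n => by
    show Multiplicative.toAdd (ψ (x ^ n)) = _
    rw [map_zpow, toAdd_zpow, smul_eq_mul]
  have hex : ∃ n : ℕ, 0 < n ∧ ∃ x, v x = n := by
    obtain ⟨x, hx⟩ := h
    have hx' : v x ≠ 0 := fun h0 => hx h0
    refine ⟨(v x).natAbs, Int.natAbs_pos.2 hx', ?_⟩
    rcases le_total 0 (v x) with h1 | h1
    · exact ⟨x, (Int.natAbs_of_nonneg h1).symm⟩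
    · refine ⟨x ^ (-1 : ℤ), ?_⟩
      rw [vzpow, Int.ofNat_natAbs_of_nonpos h1]
      ring
  obtain ⟨hpos, x₀, hx₀⟩ := Nat.find_spec hex
  set m := Nat.find hex with hm
  have hdvd : ∀ x, (m : ℤ) ∣ v x := by
    intro x
    by_contra hnd
    have h1 : v (x * x₀ ^ (-(v x / m))) = v x % m := by
      rw [vmul, vzpow, hx₀]
      have := Int.emod_add_mul_ediv (v x) m
      linarith
    have h2 : 0 ≤ v x % m := Int.emod_nonneg _ (by exact_mod_cast hpos.ne')
    have h3 : v x % m < m := Int.emod_lt_of_pos _ (by exact_mod_cast hpos)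
    have h4 : v x % m ≠ 0 := fun h => hnd (Int.dvd_of_emod_eq_zero h)
    have h5 : (v x % m).toNat < m := by
      rw [← Int.ofNat_lt, Int.toNat_of_nonneg h2]; exact h3
    refine Nat.find_min hex h5 ⟨?_, x * x₀ ^ (-(v x / m)), ?_⟩
    · have : 0 < v x % m := lt_of_le_of_ne h2 h4.symm
      omega
    · rw [h1, Int.toNat_of_nonneg h2]
  refine ⟨MonoidHom.mk' (fun x => Multiplicative.ofAdd (v x / m)) ?_, ?_⟩
  · intro x y
    rw [vmul, Int.add_ediv_of_dvd_left (hdvd x)]
    rfl
  · intro z
    refine ⟨x₀ ^ (Multiplicative.toAdd z), ?_⟩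
    show Multiplicative.ofAdd (v (x₀ ^ (Multiplicative.toAdd z)) / m) = z
    rw [vzpow, hx₀, Int.mul_ediv_cancel _ (by exact_mod_cast hpos.ne')]
    rfl

/-- the passage to an image -/
theorem of_hom {G A : Type} [Group G] [Group A] (hA : LocInd A) {H : Subgroup G}
    (hH : H.FG) (f : H →* A) (hf : f ≠ 1) :
    ∃ ψ : H →* Multiplicative ℤ, Surjective ψ := by
  have h1 : f.range.FG := by
    have : Group.FG H := (Group.fg_iff_subgroup_fg H).2 hH
    exact (Group.fg_iff_subgroup_fg _).1 (Group.fg_of_surjective f.rangeRestrict_surjective)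
  have h2 : f.range ≠ ⊥ := by
    intro h0
    apply hf
    ext x
    have : f x ∈ f.range := ⟨x, rfl⟩
    rw [h0] at this
    exact Subgroup.mem_bot.1 this
  obtain ⟨φ, hφ⟩ := hA _ h1 h2
  exact ⟨φ.comp f.rangeRestrict, hφ.comp f.rangeRestrict_surjective⟩

/-- local indicability from nontrivial homomorphisms -/
theorem locInd_of {G : Type} [Group G] (h : ∀ H : Subgroup G, H.FG → H ≠ ⊥ →
    ∃ (A : Type) (_ : Group A) (f : H →* A), LocInd A ∧ f ≠ 1) : LocInd G := by
  intro H hH hne
  obtain ⟨A, _, f, hA, hf⟩ := h H hH hne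
  exact of_hom hA hH f hf

/-- the passage to subgroups -/
theorem of_injective {G A : Type} [Group G] [Group A] (hA : LocInd A) (f : G →* A)
    (hf : Injective f) : LocInd G := by
  refine locInd_of fun H _ hne => ⟨A, inferInstance, f.comp H.subtype, hA, fun h0 => hne ?_⟩
  rw [Subgroup.eq_bot_iff_forall]
  intro x hx
  have := DFunLike.congr_fun h0 ⟨x, hx⟩
  exact hf (by rw [map_one]; exact this)

/-- free groups are locally indicable -/
theorem locInd_free (X : Type) : LocInd (FreeGroup X) := by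
  intro H hH hne
  have : IsFreeGroup H := subgroupIsFreeOfIsFree H
  have hne' : Nonempty (IsFreeGroup.Generators H) := by
    by_contra hcon
    rw [not_nonempty_iff] at hcon
    apply hne
    rw [Subgroup.eq_bot_iff_forall]
    intro x hx
    have e : (⟨x, hx⟩ : H) = 1 := by
      apply (IsFreeGroup.toFreeGroup H).injective
      exact Subsingleton.elim _ _
    exact congrArg Subtype.val e
  obtain ⟨a⟩ := hne'
  refine surj_of_ne (IsFreeGroup.lift (fun _ => Multiplicative.ofAdd 1)) ⟨IsFreeGroup.of a, ?_⟩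
  rw [IsFreeGroup.lift_of]
  intro h
  have := congrArg Multiplicative.toAdd h
  exact one_ne_zero this

/-- wreath products -/
theorem locInd_wr {E F G : Type} [Group F] [Group G] [MulAction G E] (hF : LocInd F)
    (hG : LocInd G) : LocInd (Wr E F G) := by
  classical
  refine locInd_of fun H _ hne => ?_
  by_cases h : (proj E F G).comp H.subtype = 1
  · -- some coordinate is not trivial
    have hg : ∀ a : H, a.1.g = 1 := fun a => DFunLike.congr_fun h a
    obtain ⟨a, v, hav⟩ : ∃ (a : H) (v : E), a.1.f v ≠ 1 := by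
      by_contra hcon
      push Not at hcon
      apply hne
      rw [Subgroup.eq_bot_iff_forall]
      intro x hx
      exact Wr.ext (funext fun v => hcon ⟨x, hx⟩ v) (hg ⟨x, hx⟩)
    refine ⟨F, inferInstance, MonoidHom.mk' (fun b : H => b.1.f v) ?_, hF, fun h0 => hav ?_⟩
    · intro b c
      show (b.1 * c.1).f v = _
      rw [mul_f, hg b, inv_one, one_smul]
    · exact DFunLike.congr_fun h0 a
  · exact ⟨G, inferInstance, _, hG, h⟩

end Pool.Agent.W5h57.HC
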